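import Mathlib

set_option autoImplicit false

namespace Pool.Agent.Results.MP_32269d_co.No

noncomputable def q (k : ℕ) : ℝ := 2 ^ (-(1 / 2 ^ k : ℝ))

noncomputable def x (j : ℕ) : ℝ := 4 * q (Nat.log 2 j) ^ j * (1 - q (Nat.log 2 j))

theorem q0 (k : ℕ) : 0 < q k := by unfold q; positivity

theorem q1 (k : ℕ) : q k < 1 :=
  Real.rpow_lt_one_of_one_lt_of_neg one_lt_two (neg_neg_of_pos (by positivity))

theorem q2 (k : ℕ) : q k = q (k + 1) ^ 2 := by
  unfold q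
  rw [sq, ← Real.rpow_add two_pos]
  congr 1; field_simp; ring

theorem q3 (k : ℕ) : q k ^ 2 ^ k = 1 / 2 := by
  unfold q
  rw [← Real.rpow_natCast, ← Real.rpow_mul two_pos.le]
  simp [Real.rpow_neg_one]

theorem q4 {k l : ℕ} (h : k ≤ l) : q k ≤ q l :=
  Real.rpow_le_rpow_of_exponent_le one_le_two (neg_le_neg (by gcongr; norm_num))

theorem x0 (j : ℕ) : 0 < x j := mul_pos (by have := q0 (Nat.log 2 j); positivity) (sub_pos.2 (q1 _))

theorem xs {t : ℕ} (h : 1 ≤ t) : x t = x (2 * t) + x (2 * t + 1) := by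
  have a : Nat.log 2 (2 * t) = Nat.log 2 t + 1 := by
    rw [mul_comm, Nat.log_mul_base one_lt_two (by omega)]
  have b : Nat.log 2 (2 * t + 1) = Nat.log 2 t + 1 := by
    rw [Nat.log_of_one_lt_of_le one_lt_two (by omega), show (2 * t + 1) / 2 = t by omega]
  unfold x
  rw [a, b, q2]; ring

theorem rat {t i j K : ℕ} (h : 1 ≤ t) (hK : t < 2 ^ K) (i1 : t ≤ i) (i2 : i < 2 * t) (j1 : t ≤ j)
    (j2 : j < 2 * t) : x i / x j ≤ q K * (1 + q K) := by
  obtain ⟨k, hk⟩ : ∃ k, k = Nat.log 2 t := ⟨_, rfl⟩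
  have a := hk ▸ Nat.pow_log_le_self 2 (show t ≠ 0 by omega)
  have b := hk ▸ Nat.lt_pow_succ_log_self one_lt_two t
  have c := q4 (show k + 1 ≤ K from (Nat.pow_lt_pow_iff_right one_lt_two).1 (a.trans_lt hK))
  have d := q3 (k + 1)
  have e : ∀ i, t ≤ i → i < 2 * t → i < 2 ^ (k + 1) ∧ x i = 4 * q (k + 1) ^ (2 * i) * (1 - q (k + 1) ^ 2) ∨
      2 ^ (k + 1) ≤ i ∧ x i = 4 * q (k + 1) ^ i * (1 - q (k + 1)) := fun i i1 i2 => by
    refine (lt_or_ge _ _).imp (fun z => ⟨z, ?_⟩) fun z => ⟨z, ?_⟩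
    · rw [x, Nat.log_eq_of_pow_le_of_lt_pow (a.trans i1) z, q2, pow_mul]
    · rw [x, Nat.log_eq_of_pow_le_of_lt_pow z (by rw [pow_succ]; omega)]
  have p0 := q0 (k + 1)
  have p1 := q1 (k + 1)
  rw [Nat.succ_eq_add_one] at b
  rw [pow_succ] at b d e
  generalize q (k + 1) = r at *
  obtain ⟨M, hM⟩ : ∃ M, 2 ^ k = M + 1 := ⟨2 ^ k - 1, by have := Nat.one_le_two_pow (n := k); omega⟩
  rw [hM] at a b d e
  obtain ⟨t, rfl⟩ := Nat.exists_eq_add_of_le' h
  have m : ∀ u v : ℕ, u ≤ v → r ^ v ≤ r ^ u := fun u v => pow_le_pow_of_le_one p0.le p1.le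
  have g : r ^ (2 * M + 1) ≤ r ^ (4 * M + 2) * (1 + r) := by
    have : r ^ (2 * M + 1) * r = 1 / 2 := by rw [← d]; ring
    have := pow_pos p0 (2 * M + 1)
    rw [show r ^ (4 * M + 2) = r ^ (2 * M + 1) * r ^ (2 * M + 1) by ring]
    have : 1 ≤ r ^ (2 * M + 1) * (1 + r) := by nlinarith
    nlinarith
  have s := sub_pos.2 p1
  have U : x i ≤ r * (1 + r) * (4 * r ^ (2 * t + 1) * (1 - r)) := by
    obtain ⟨z, w⟩ | ⟨z, w⟩ := e i i1 i2 <;> rw [w]
    · have := mul_le_mul_of_nonneg_right (m (2 * t + 2) (2 * i) (by omega))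
        (show 0 ≤ 4 * (1 - r) * (1 + r) by positivity)
      rw [pow_succ r (2 * t + 1)] at this
      linarith
    · have := mul_le_mul_of_nonneg_right (((m (2 * M + 1) i (by omega)).trans g).trans
        (mul_le_mul_of_nonneg_right (m (2 * t + 2) (4 * M + 2) (by omega)) (by positivity)))
        (show 0 ≤ 4 * (1 - r) by positivity)
      rw [pow_succ r (2 * t + 1)] at this
      linarith
  have L : 4 * r ^ (2 * t + 1) * (1 - r) ≤ x j := by
    obtain ⟨z, w⟩ | ⟨z, w⟩ := e j j1 j2 <;> rw [w]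
    · have := mul_le_mul_of_nonneg_right (((m (2 * M + 1) (2 * t + 1) (by omega)).trans g).trans
        (mul_le_mul_of_nonneg_right (m (2 * j) (4 * M + 2) (by omega)) (by positivity)))
        (show 0 ≤ 4 * (1 - r) by positivity)
      linarith
    · gcongr ?_ * _
      linarith [m j (2 * t + 1) (by omega)]
  rw [div_le_iff₀ (x0 j)]
  refine U.trans ?_
  have := q0 K
  gcongr

theorem result : ∃ I : ℕ → List ℝ, I 1 = [1] ∧
    (∀ i, 1 ≤ i → ∃ (l l' : List ℝ) (a b : ℝ), 0 < a ∧ 0 < b ∧ I i = l ++ (a + b) :: l' ∧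
      I (i + 1) = l ++ a :: b :: l') ∧
    ∀ C : ℝ, ∃ n : ℕ, 1 ≤ n ∧ ∀ t, 1 ≤ t → t ≤ n → ∀ a ∈ I t, ∀ b ∈ I t,
      a / b < 2 - 3 / (2 * n) - C / n ^ 2 := by
  have st : ∀ (t : ℕ) (l : {l : List ℝ // l.Perm ((List.range' (t + 1) (t + 1)).map x)}),
      ∃ m : {l : List ℝ // l.Perm ((List.range' (t + 2) (t + 2)).map x)}, ∃ u v : List ℝ,
        l.1 = u ++ x (t + 1) :: v ∧ m.1 = u ++ x (2 * (t + 1)) :: x (2 * (t + 1) + 1) :: v := by
    rintro t ⟨l, h⟩
    obtain ⟨u, v, rfl⟩ := List.append_of_mem (h.mem_iff.2 (List.mem_map_of_mem (a := t + 1) (by simp)))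
    refine ⟨⟨_, ?_⟩, u, v, rfl, rfl⟩
    rw [List.range'_succ, List.map_cons] at h
    have := (List.perm_middle.symm.trans h).cons_inv
    rw [List.range'_concat, List.range'_concat, List.map_append, List.map_append, List.append_assoc]
    refine (List.perm_middle.trans ((List.perm_middle.trans (this.cons _)).cons _)).trans
      (.trans (.of_eq ?_) List.perm_append_comm)
    simp; constructor <;> congr 1 <;> ring
  choose f hf using st
  let J : ∀ t, {l : List ℝ // l.Perm ((List.range' (t + 1) (t + 1)).map x)} :=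
    Nat.rec ⟨[1], .of_eq (by simp [x, q, Real.rpow_neg_one]; norm_num)⟩ f
  refine ⟨fun t => (J (t - 1)).1, rfl, fun i hi => ?_, fun C => ?_⟩
  · obtain ⟨i, rfl⟩ := Nat.exists_eq_add_of_le' hi
    obtain ⟨u, v, a, b⟩ := hf i (J i)
    exact ⟨u, v, _, _, x0 _, x0 _, xs hi ▸ a, b⟩
  obtain ⟨K, hK⟩ := pow_unbounded_of_one_lt (20 * |C| + 100) (one_lt_two (α := ℝ))
  obtain ⟨n, hn⟩ : ∃ n : ℕ, 2 ^ K = n + 1 := ⟨2 ^ K - 1, by have := Nat.one_le_two_pow (n := K); omega⟩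
  have e : (2 : ℝ) ^ K = n + 1 := by exact_mod_cast hn
  have c0 := abs_nonneg C
  have n0 : (99 : ℝ) < n := by linarith
  refine ⟨n, by exact_mod_cast (show (1 : ℝ) ≤ n by linarith), fun t ht tn a ha b hb => ?_⟩
  obtain ⟨t, rfl⟩ := Nat.exists_eq_add_of_le' ht
  obtain ⟨i, hi, rfl⟩ := List.mem_map.1 ((J t).2.mem_iff.1 ha)
  obtain ⟨j, hj, rfl⟩ := List.mem_map.1 ((J t).2.mem_iff.1 hb)
  rw [List.mem_range'_1] at hi hj
  refine (rat (K := K) ht (by omega) hi.1 (by omega) hj.1 (by omega)).trans_lt ?_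
  have r : q K ≤ 1 - 3 / (5 * n) := by
    have := Real.log_two_gt_d9
    have := Real.add_one_le_exp (Real.log 2 / (n + 1))
    rw [q, e, Real.rpow_def_of_pos two_pos, mul_neg, mul_one_div, Real.exp_neg]
    refine (inv_anti₀ (by positivity) this).trans ?_
    rw [inv_le_iff_one_le_mul₀ (by positivity)]
    field_simp
    nlinarith
  have := q0 K
  refine (mul_le_mul r (add_le_add le_rfl r) (by positivity) (this.le.trans r)).trans_lt ?_
  have := le_abs_self C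
  field_simp
  nlinarith

end Pool.Agent.Results.MP_32269d_co.No
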